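import Pool.Agent.Lib.helper3.SmoothSA

namespace Pool.Agent.Results.MP_cd4dc1_an.NormSide

open Pool.Agent.Lib.helper3.SmoothJ

/-- Q1: on a smooth complex Banach space, `‖T‖² I - T²` is strongly normal for self-adjoint `T`. -/
theorem result (X : Type*) [NormedAddCommGroup X] [NormedSpace ℂ X] [CompleteSpace X]
    (hX : IsSmooth X) (T : X →L[ℂ] X) (hT : IsSA T) :
    StronglyNormal (((‖T‖ ^ 2 : ℝ) : ℂ) • (1 : X →L[ℂ] X) - T ^ 2) :=
  q1 hX hT

end Pool.Agent.Results.MP_cd4dc1_an.NormSide
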